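import Pool.Agent.W761.CP.Defs

/-!
# Exponential decay in the wall
-/

set_option autoImplicit false
set_option maxHeartbeats 1000000

open MeasureTheory
open scoped ENNReal InnerProductSpace

namespace Pool.Agent.W975.CP
open Pool.Agent.W761.CP
open Pool.Agent.Helper209.CX (Ed L2d)

variable {d : ℕ}

theorem int_sq (w : L2d d) : Integrable (fun x => ‖w x‖ ^ 2) volume :=
  (memLp_two_iff_integrable_sq_norm (Lp.aestronglyMeasurable w)).1 (Lp.memLp w)

theorem norm_sq_eq (w : L2d d) : ‖w‖ ^ 2 = ∫ x, ‖w x‖ ^ 2 := by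
  have h1 : (‖w‖ ^ 2 : ℝ) = RCLike.re ⟪w, w⟫_ℂ := by
    rw [inner_self_eq_norm_sq]
  rw [h1, L2.inner_def, ← integral_re (L2.integrable_inner w w)]
  apply integral_congr_ae
  filter_upwards with x
  rw [inner_self_eq_norm_sq]

theorem memLp_mul {χ : Ed d → ℝ} (hm : Continuous χ) (C : ℝ) (hC : ∀ x, |χ x| ≤ C) (u : L2d d) :
    MemLp (fun x => (χ x : ℂ) * u x) 2 volume := by
  refine MemLp.of_le_mul (c := C) (Lp.memLp u) ?_ ?_
  · exact (Complex.continuous_ofReal.comp hm).aestronglyMeasurable.mul (Lp.aestronglyMeasurable u)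
  · filter_upwards with x
    rw [norm_mul, Complex.norm_real]
    exact mul_le_mul_of_nonneg_right (hC x) (norm_nonneg _)

theorem mulR_ae {χ : Ed d → ℝ} (hm : Continuous χ) (C : ℝ) (hC : ∀ x, |χ x| ≤ C) (u : L2d d) :
    mulR χ u =ᵐ[volume] fun x => (χ x : ℂ) * u x := by
  have h := memLp_mul hm C hC u
  unfold mulR
  rw [dif_pos h]
  exact h.coeFn_toLp

theorem mulR_norm {χ : Ed d → ℝ} (hm : Continuous χ) (C : ℝ) (hC : ∀ x, |χ x| ≤ C) (u : L2d d) :
    ‖mulR χ u‖ ≤ C * ‖u‖ := by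
  apply Lp.norm_le_mul_norm_of_ae_le_mul
  filter_upwards [mulR_ae hm C hC u] with x hx
  rw [hx, norm_mul, Complex.norm_real]
  exact mul_le_mul_of_nonneg_right (hC x) (norm_nonneg _)

/-- the weight -/
noncomputable def wt (c : ℝ) (b : Ed d → ℝ) : Ed d → ℝ := fun x => Real.exp (c * b x)

theorem wt_mul (c : ℝ) {b : Ed d → ℝ} (hb : Mul b) (hc : HasCompactSupport b) : Mul (wt c b) := by
  refine ⟨?_, 1, ?_⟩
  · exact Real.contDiff_exp.comp (contDiff_const.mul hb.smooth)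
  · have h := hc.comp_left (g := fun t => Real.exp (c * t) - 1) (by simp)
    exact h

theorem pd_wt (c : ℝ) {b : Ed d → ℝ} (hb : Mul b) (k : Fin d) (x : Ed d) :
    pd k (wt c b) x = c * pd k b x * wt c b x := by
  have h1 : HasFDerivAt b (fderiv ℝ b x) x :=
    (hb.smooth.differentiable (by simp)).differentiableAt.hasFDerivAt
  have h2 := (h1.const_mul c).exp
  unfold pd wt
  rw [h2.fderiv]
  simp
  ring

theorem pd_cont {b : Ed d → ℝ} (hb : Mul b) (k : Fin d) : Continuous (pd k b) := by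
  unfold pd
  exact (hb.smooth.continuous_fderiv (by simp)).clm_apply continuous_const

theorem pd_max {b : Ed d → ℝ} (hb1 : ∀ x, b x ≤ 1) (k : Fin d) {x : Ed d} (hx : b x = 1) :
    pd k b x = 0 := by
  have h : IsLocalMax b x := Filter.Eventually.of_forall fun y => by rw [hx]; exact hb1 y
  unfold pd
  rw [h.fderiv_eq_zero]
  rfl

theorem pd_min {b : Ed d → ℝ} (hb0 : ∀ x, 0 ≤ b x) (k : Fin d) {x : Ed d} (hx : b x = 0) :
    pd k b x = 0 := by
  have h : IsLocalMin b x := Filter.Eventually.of_forall fun y => by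
    show b x ≤ b y
    rw [hx]; exact hb0 y
  unfold pd
  rw [h.fderiv_eq_zero]
  rfl

theorem agm (hE : S_E1) : S_AGM := by
  intro d h M a V b u f g z hh hM ha hV hV0 hb hbc hb0 hb1 hbM hab hz hu hg
  set c : ℝ := a / h with hc
  have hc0 : 0 ≤ c := div_nonneg ha hh.le
  have hbcont : Continuous b := hb.smooth.continuous
  set χ : Ed d → ℝ := wt c b with hχ
  have hχm : Mul χ := wt_mul c hb hbc
  have hχc : Continuous χ := hχm.smooth.continuous
  have hχpos : ∀ x, 0 < χ x := fun x => Real.exp_pos _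
  have hχle : ∀ x, χ x ≤ Real.exp c := by
    intro x
    apply Real.exp_le_exp.2
    nlinarith [hb1 x]
  set E : ℝ := Real.exp (2 * a / h) with hEdef
  have hE0 : 0 < E := Real.exp_pos _
  have hEE : Real.exp c ^ 2 = E := by
    rw [hEdef, ← Real.exp_nat_mul]
    congr 1
    rw [hc]; push_cast; ring
  have hχ2 : ∀ x, χ x ^ 2 ≤ E := by
    intro x
    rw [← hEE]
    exact pow_le_pow_left₀ (hχpos x).le (hχle x) 2
  have hχabs : ∀ x, |χ x| ≤ Real.exp c := fun x => by rw [abs_of_pos (hχpos x)]; exact hχle x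
  have hpd : ∀ k x, pd k χ x = c * pd k b x * χ x := fun k x => pd_wt c hb k x
  have hpdc : ∀ k, Continuous (pd k χ) := fun k => pd_cont hχm k
  have hsum : ∀ x, h ^ 2 * (∑ k, pd k χ x ^ 2) = a ^ 2 * (∑ k, pd k b x ^ 2) * χ x ^ 2 := by
    intro x
    have e1 : ∀ k, pd k χ x ^ 2 = c ^ 2 * χ x ^ 2 * pd k b x ^ 2 := by
      intro k; rw [hpd]; ring
    rw [Finset.sum_congr rfl (fun k _ => e1 k), ← Finset.mul_sum, hc]
    field_simp
  have hpdB : ∀ k x, |pd k χ x| ≤ Real.sqrt (M / 4 / h ^ 2 * E) := by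
    intro k x
    apply Real.abs_le_sqrt
    have h1 : pd k χ x ^ 2 ≤ ∑ k, pd k χ x ^ 2 :=
      Finset.single_le_sum (f := fun k => pd k χ x ^ 2) (fun i _ => sq_nonneg _) (Finset.mem_univ k)
    have h2 : h ^ 2 * (∑ k, pd k χ x ^ 2) ≤ M / 4 * E := by
      rw [hsum]
      exact mul_le_mul (hab x) (hχ2 x) (sq_nonneg _) (by positivity)
    have h3 : (∑ k, pd k χ x ^ 2) ≤ M / 4 / h ^ 2 * E := by
      rw [div_mul_eq_mul_div, le_div_iff₀ (by positivity)]
      linarith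
    linarith
  -- integrability
  have hu2 := int_sq u
  have iV0 : Integrable (fun x => ‖V x‖ * ‖u x‖ ^ 2) volume := by
    obtain ⟨-, C, -, hC⟩ := hV
    exact (hC u g hg).1
  have hχ2m : AEStronglyMeasurable (fun x => χ x ^ 2) volume := (hχc.pow 2).aestronglyMeasurable
  have iV : Integrable (fun x => (V x).re * (χ x ^ 2 * ‖u x‖ ^ 2)) volume := by
    have h1 : Integrable (fun x => χ x ^ 2 * (‖V x‖ * ‖u x‖ ^ 2)) volume := by
      refine iV0.bdd_mul (c := E) hχ2m ?_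
      filter_upwards with x
      rw [Real.norm_eq_abs, abs_of_nonneg (sq_nonneg _)]
      exact hχ2 x
    refine h1.mono' ?_ ?_
    · exact ((Complex.measurable_re.comp hV.1).aestronglyMeasurable).mul
        (hχ2m.mul hu2.aestronglyMeasurable)
    · filter_upwards with x
      rw [Real.norm_eq_abs, abs_mul, abs_of_nonneg (show 0 ≤ χ x ^ 2 * ‖u x‖ ^ 2 by positivity)]
      have := Complex.abs_re_le_norm (V x)
      have h2 : 0 ≤ χ x ^ 2 * ‖u x‖ ^ 2 := by positivity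
      calc |(V x).re| * (χ x ^ 2 * ‖u x‖ ^ 2) ≤ ‖V x‖ * (χ x ^ 2 * ‖u x‖ ^ 2) :=
            mul_le_mul_of_nonneg_right this h2
        _ = χ x ^ 2 * (‖V x‖ * ‖u x‖ ^ 2) := by ring
  have iχ : Integrable (fun x => χ x ^ 2 * ‖u x‖ ^ 2) volume := by
    refine hu2.bdd_mul (c := E) hχ2m ?_
    filter_upwards with x
    rw [Real.norm_eq_abs, abs_of_nonneg (sq_nonneg _)]
    exact hχ2 x
  have iP : Integrable (fun x => (∑ k, pd k χ x ^ 2) * ‖u x‖ ^ 2) volume := by
    refine hu2.bdd_mul (c := M / 4 / h ^ 2 * E) ?_ ?_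
    · exact (continuous_finsetSum _ fun k _ => (hpdc k).pow 2).aestronglyMeasurable
    · filter_upwards with x
      have h2 : h ^ 2 * (∑ k, pd k χ x ^ 2) ≤ M / 4 * E := by
        rw [hsum]
        exact mul_le_mul (hab x) (hχ2 x) (sq_nonneg _) (by positivity)
      rw [Real.norm_eq_abs, abs_of_nonneg (Finset.sum_nonneg fun k _ => sq_nonneg _),
        div_mul_eq_mul_div, le_div_iff₀ (by positivity)]
      linarith
  -- the right hand side
  have hχ2c : Continuous (fun x => χ x ^ 2) := hχc.pow 2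
  have hχ2abs : ∀ x, |χ x ^ 2| ≤ E := fun x => by
    rw [abs_of_nonneg (sq_nonneg _)]; exact hχ2 x
  have hin : (∫ x, (χ x ^ 2 : ℂ) * ((z • u + f : L2d d) x * (starRingEnd ℂ) (u x))).re =
      z.re * (∫ x, χ x ^ 2 * ‖u x‖ ^ 2) + (⟪u, mulR (fun x => χ x ^ 2) f⟫_ℂ).re := by
    have i1 : Integrable (fun x => z * ((χ x ^ 2 * ‖u x‖ ^ 2 : ℝ) : ℂ)) volume :=
      (iχ.ofReal).const_mul z
    have i2 := L2.integrable_inner (𝕜 := ℂ) u (mulR (fun x => χ x ^ 2) f)
    have e : ∫ x, (χ x ^ 2 : ℂ) * ((z • u + f : L2d d) x * (starRingEnd ℂ) (u x)) =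
        z * ((∫ x, χ x ^ 2 * ‖u x‖ ^ 2 : ℝ) : ℂ) + ⟪u, mulR (fun x => χ x ^ 2) f⟫_ℂ := by
      rw [L2.inner_def, ← integral_complex_ofReal, ← integral_const_mul, ← integral_add i1 i2]
      apply integral_congr_ae
      filter_upwards [Lp.coeFn_add (z • u) f, Lp.coeFn_smul z u,
        mulR_ae hχ2c E hχ2abs f] with x h1 h2 h3
      rw [h1, Pi.add_apply, h2, Pi.smul_apply, RCLike.inner_apply, h3, smul_eq_mul]
      have h4 : u x * (starRingEnd ℂ) (u x) = ((‖u x‖ ^ 2 : ℝ) : ℂ) := by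
        rw [Complex.mul_conj, Complex.normSq_eq_norm_sq]
      push_cast at h4 ⊢
      rw [← h4]
      ring
    rw [e, Complex.add_re, Complex.re_mul_ofReal]
  have hin2 : (⟪u, mulR (fun x => χ x ^ 2) f⟫_ℂ).re ≤ E * (‖u‖ * ‖f‖) := by
    have h1 : (⟪u, mulR (fun x => χ x ^ 2) f⟫_ℂ).re ≤ ‖⟪u, mulR (fun x => χ x ^ 2) f⟫_ℂ‖ :=
      Complex.re_le_norm _
    have h2 := norm_inner_le_norm (𝕜 := ℂ) u (mulR (fun x => χ x ^ 2) f)
    have h3 := mulR_norm hχ2c E hχ2abs f
    have h4 : ‖u‖ * ‖mulR (fun x => χ x ^ 2) f‖ ≤ ‖u‖ * (E * ‖f‖) :=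
      mul_le_mul_of_nonneg_left h3 (norm_nonneg _)
    nlinarith
  have key := hE d h V u (z • u + f) g χ hV hu hg hχm
  rw [hin] at key
  set S : Set (Ed d) := {x | b x = 1} with hS
  have hSm : MeasurableSet S := (isClosed_singleton.preimage hbcont).measurableSet
  -- the gradient terms
  have hG : E * (∫ x in S, ∑ k, ‖g k x‖ ^ 2) ≤ ∑ k, ‖mulR χ (g k) + mulR (pd k χ) u‖ ^ 2 := by
    rw [integral_finsetSum _ (fun k _ => (int_sq (g k)).integrableOn), Finset.mul_sum]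
    apply Finset.sum_le_sum
    intro k _
    rw [norm_sq_eq, ← integral_const_mul]
    have i3 := int_sq (mulR χ (g k) + mulR (pd k χ) u)
    have h1 : ∫ x in S, E * ‖g k x‖ ^ 2 = ∫ x in S, ‖(mulR χ (g k) + mulR (pd k χ) u : L2d d) x‖ ^ 2 := by
      apply setIntegral_congr_ae hSm
      filter_upwards [Lp.coeFn_add (mulR χ (g k)) (mulR (pd k χ) u), mulR_ae hχc _ hχabs (g k),
        mulR_ae (hpdc k) _ (hpdB k) u] with x h1 h2 h3 hx
      have hx1 : b x = 1 := hx
      rw [h1, Pi.add_apply, h2, h3, hpd, pd_max hb1 k hx1]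
      have e1 : χ x = Real.exp c := by
        show Real.exp (c * b x) = _
        rw [hx1, mul_one]
      rw [mul_zero, zero_mul, Complex.ofReal_zero, zero_mul, add_zero, norm_mul, Complex.norm_real,
        mul_pow, Real.norm_eq_abs, sq_abs, e1, hEE]
    rw [h1]
    exact setIntegral_le_integral i3 (by filter_upwards with x; positivity)
  -- the potential terms
  have hF : M / 4 * (E * (∫ x in S, ‖u x‖ ^ 2)) - M / 2 * ‖u‖ ^ 2 ≤
      (∫ x, (V x).re * (χ x ^ 2 * ‖u x‖ ^ 2)) - h ^ 2 * (∫ x, (∑ k, pd k χ x ^ 2) * ‖u x‖ ^ 2) -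
      z.re * (∫ x, χ x ^ 2 * ‖u x‖ ^ 2) := by
    have i4 : Integrable (fun x => (V x).re * (χ x ^ 2 * ‖u x‖ ^ 2) -
        h ^ 2 * ((∑ k, pd k χ x ^ 2) * ‖u x‖ ^ 2)) volume := iV.sub (iP.const_mul _)
    rw [← integral_const_mul (h ^ 2), ← integral_const_mul z.re,
      ← integral_sub iV (iP.const_mul _), ← integral_sub i4 (iχ.const_mul _)]
    have e2 : M / 4 * (E * (∫ x in S, ‖u x‖ ^ 2)) - M / 2 * ‖u‖ ^ 2 =
        ∫ x, (S.indicator (fun x => M / 4 * (E * ‖u x‖ ^ 2)) x - M / 2 * ‖u x‖ ^ 2) := by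
      rw [integral_sub (((hu2.const_mul _).const_mul _).indicator hSm) (hu2.const_mul _),
        integral_indicator hSm, integral_const_mul, integral_const_mul, integral_const_mul,
        norm_sq_eq]
    rw [e2]
    apply integral_mono (((((hu2.const_mul _).const_mul _).indicator hSm)).sub (hu2.const_mul _))
      (i4.sub (iχ.const_mul _))
    intro x
    show S.indicator (fun x => M / 4 * (E * ‖u x‖ ^ 2)) x - M / 2 * ‖u x‖ ^ 2 ≤
      (V x).re * (χ x ^ 2 * ‖u x‖ ^ 2) - h ^ 2 * ((∑ k, pd k χ x ^ 2) * ‖u x‖ ^ 2) -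
        z.re * (χ x ^ 2 * ‖u x‖ ^ 2)
    have e3 : (V x).re * (χ x ^ 2 * ‖u x‖ ^ 2) - h ^ 2 * ((∑ k, pd k χ x ^ 2) * ‖u x‖ ^ 2) -
        z.re * (χ x ^ 2 * ‖u x‖ ^ 2) =
        ((V x).re - a ^ 2 * (∑ k, pd k b x ^ 2) - z.re) * (χ x ^ 2 * ‖u x‖ ^ 2) := by
      rw [← mul_assoc (h ^ 2), hsum]
      ring
    rw [e3]
    have hu0 : 0 ≤ ‖u x‖ ^ 2 := sq_nonneg _
    have hcu : 0 ≤ χ x ^ 2 * ‖u x‖ ^ 2 := by positivity
    by_cases hbx : b x = 0
    · have hxS : x ∉ S := by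
        intro hx
        have : b x = 1 := hx
        rw [hbx] at this
        norm_num at this
      rw [Set.indicator_of_notMem hxS]
      have e4 : χ x = 1 := by
        show Real.exp (c * b x) = 1
        rw [hbx, mul_zero, Real.exp_zero]
      have e5 : (∑ k, pd k b x ^ 2) = 0 := by
        apply Finset.sum_eq_zero
        intro k _
        rw [pd_min hb0 k hbx]
        norm_num
      rw [e4, e5]
      have := hV0 x
      nlinarith
    · have h1 := hbM x hbx
      have h2 := hab x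
      have h3 : M / 4 ≤ (V x).re - a ^ 2 * (∑ k, pd k b x ^ 2) - z.re := by linarith
      have h4 : M / 4 * (χ x ^ 2 * ‖u x‖ ^ 2) ≤
          ((V x).re - a ^ 2 * (∑ k, pd k b x ^ 2) - z.re) * (χ x ^ 2 * ‖u x‖ ^ 2) :=
        mul_le_mul_of_nonneg_right h3 hcu
      have h5 : 0 ≤ M / 2 * ‖u x‖ ^ 2 := by positivity
      by_cases hxS : x ∈ S
      · rw [Set.indicator_of_mem hxS]
        have hx1 : b x = 1 := hxS
        have e1 : χ x ^ 2 = E := by
          rw [← hEE]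
          congr 1
          show Real.exp (c * b x) = _
          rw [hx1, mul_one]
        rw [e1] at h4 ⊢
        linarith
      · rw [Set.indicator_of_notMem hxS]
        have h6 : 0 ≤ M / 4 * (χ x ^ 2 * ‖u x‖ ^ 2) := by positivity
        linarith
  have hfin : E * (h ^ 2 * (∫ x in S, ∑ k, ‖g k x‖ ^ 2) + M / 4 * (∫ x in S, ‖u x‖ ^ 2)) ≤
      M / 2 * ‖u‖ ^ 2 + E * (‖u‖ * ‖f‖) := by
    have h7 := mul_le_mul_of_nonneg_left hG (show 0 ≤ h ^ 2 by positivity)
    nlinarith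
  have hinv : Real.exp (-(2 * a / h)) * E = 1 := by
    rw [hEdef, ← Real.exp_add]
    simp
  have h8 := mul_le_mul_of_nonneg_left hfin (Real.exp_pos (-(2 * a / h))).le
  rw [← mul_assoc, hinv, one_mul, mul_add, ← mul_assoc, ← mul_assoc, hinv, one_mul] at h8
  exact h8

end Pool.Agent.W975.CP
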